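import Pool.Agent.H98.EX.BTargets

/-!
# Row FHL of exa: the cell functional from below
-/

set_option autoImplicit false

open MeasureTheory ProbabilityTheory Filter Topology
open scoped ENNReal
open Pool.Agent.H95 Pool.Agent.H95.Cop
open Pool.Agent.H98.EX

namespace Pool.Agent.H36.EX

/-- prefix sums -/
noncomputable def ps (y : ℕ → ℝ) (n : ℕ) : ℝ := ∑ i ∈ Finset.range n, y i

lemma ps_succ (y : ℕ → ℝ) (n : ℕ) : ps y (n + 1) = ps y n + y n := Finset.sum_range_succ _ _

lemma H_eq_ps (y : ℕ → ℝ) {a b : ℕ} (h : a ≤ b) : H y a b = ps y b - ps y a := by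
  unfold H ps
  rw [Finset.sum_Ico_eq_sub _ h]

lemma H_shift0 (y : ℕ → ℝ) (c i : ℕ) : H (shift c y) 0 i = ps y (c + i) - ps y c := by
  induction i with
  | zero => simp [H]
  | succ i ih =>
    have h1 : H (shift c y) 0 (i + 1) = H (shift c y) 0 i + shift c y i := by
      unfold H
      rw [Finset.sum_Ico_succ_top (Nat.zero_le i)]
    have h2 : shift c y i = y (c + i) := by
      unfold shift
      rw [add_comm]
    rw [h1, ih, h2, show c + (i + 1) = c + i + 1 by omega, ps_succ]
    ring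

lemma H_back0 (y : ℕ → ℝ) (c i : ℕ) (h : i ≤ c) :
    H (fun j => y (c - 1 - j)) 0 i = ps y c - ps y (c - i) := by
  induction i with
  | zero => simp [H]
  | succ i ih =>
    have h1 : H (fun j => y (c - 1 - j)) 0 (i + 1) =
        H (fun j => y (c - 1 - j)) 0 i + y (c - 1 - i) := by
      unfold H
      rw [Finset.sum_Ico_succ_top (Nat.zero_le i)]
    have h2 : ps y (c - i) = ps y (c - (i + 1)) + y (c - 1 - i) := by
      have h3 : c - i = c - (i + 1) + 1 := by omega
      have h4 : c - 1 - i = c - (i + 1) := by omega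
      rw [h3, ps_succ, h4]
    rw [h1, ih (by omega), h2]
    ring

lemma sum_three (R : ℕ) (f : ℕ → ℝ) : ∑ i ∈ Finset.range (R + (1 + R)), f i =
    ∑ i ∈ Finset.range R, f (R - 1 - i) + f R + ∑ i ∈ Finset.range R, f (R + 1 + i) := by
  rw [Finset.sum_range_add, Finset.sum_range_reflect (fun i => f i) R]
  rw [Finset.sum_range_add (fun i => f (R + i)) 1 R]
  simp only [Finset.sum_range_one, add_zero, ← add_assoc]

lemma NL_eq (R : ℕ) (y : ℕ → ℝ) (c : ℕ) (h : R ≤ c) : NL R y c =
    ∑ i ∈ Finset.range (R + (1 + R)), Real.exp (ps y c - ps y (c - R + i)) := by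
  rw [sum_three]
  have h1 : VL R (fun j => y (c - 1 - j)) =
      ∑ i ∈ Finset.range R, Real.exp (ps y c - ps y (c - R + (R - 1 - i))) := by
    unfold VL
    apply Finset.sum_congr rfl
    intro i hi
    rw [Finset.mem_range] at hi
    rw [H_back0 y c (i + 1) (by omega), show c - R + (R - 1 - i) = c - (i + 1) by omega]
  have h2 : VR R (shift c y) =
      ∑ i ∈ Finset.range R, Real.exp (ps y c - ps y (c - R + (R + 1 + i))) := by
    unfold VR
    apply Finset.sum_congr rfl
    intro i _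
    rw [H_shift0, show c - R + (R + 1 + i) = c + (i + 1) by omega]
    congr 1
    ring
  have h3 : Real.exp (ps y c - ps y (c - R + R)) = 1 := by
    rw [show c - R + R = c by omega, sub_self, Real.exp_zero]
  unfold NL
  rw [h1, h2, h3]
  ring

lemma NR_eq (R : ℕ) (y : ℕ → ℝ) (c : ℕ) (h : R ≤ c) : NR R y c =
    ∑ i ∈ Finset.range (R + (1 + R)), Real.exp (ps y (c - R + i + 1) - ps y (c + 1)) := by
  rw [sum_three]
  have h1 : VR R (fun j => y (c - j)) =
      ∑ i ∈ Finset.range R, Real.exp (ps y (c - R + (R - 1 - i) + 1) - ps y (c + 1)) := by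
    unfold VR
    apply Finset.sum_congr rfl
    intro i hi
    rw [Finset.mem_range] at hi
    have h0 := H_back0 y (c + 1) (i + 1) (by omega)
    simp only [Nat.add_sub_cancel] at h0
    rw [h0, show c - R + (R - 1 - i) + 1 = c + 1 - (i + 1) by omega]
    congr 1
    ring
  have h2 : VL R (shift (c + 1) y) =
      ∑ i ∈ Finset.range R, Real.exp (ps y (c - R + (R + 1 + i) + 1) - ps y (c + 1)) := by
    unfold VL
    apply Finset.sum_congr rfl
    intro i _
    rw [H_shift0, show c - R + (R + 1 + i) + 1 = c + 1 + (i + 1) by omega]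
  have h3 : Real.exp (ps y (c - R + R + 1) - ps y (c + 1)) = 1 := by
    rw [show c - R + R = c by omega, sub_self, Real.exp_zero]
  unfold NR
  rw [h1, h2, h3]
  ring

lemma one_le_NL (R : ℕ) (y : ℕ → ℝ) (c : ℕ) : 1 ≤ NL R y c := by
  unfold NL VR VL
  have h1 : 0 ≤ ∑ i ∈ Finset.range R, Real.exp (-H (shift c y) 0 (i + 1)) :=
    Finset.sum_nonneg fun i _ => (Real.exp_pos _).le
  have h2 : 0 ≤ ∑ i ∈ Finset.range R, Real.exp (H (fun j => y (c - 1 - j)) 0 (i + 1)) :=
    Finset.sum_nonneg fun i _ => (Real.exp_pos _).le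
  linarith

lemma one_le_NR (R : ℕ) (y : ℕ → ℝ) (c : ℕ) : 1 ≤ NR R y c := by
  unfold NR VR VL
  have h1 : 0 ≤ ∑ i ∈ Finset.range R, Real.exp (-H (fun j => y (c - j)) 0 (i + 1)) :=
    Finset.sum_nonneg fun i _ => (Real.exp_pos _).le
  have h2 : 0 ≤ ∑ i ∈ Finset.range R, Real.exp (H (shift (c + 1) y) 0 (i + 1)) :=
    Finset.sum_nonneg fun i _ => (Real.exp_pos _).le
  linarith

theorem pf_FHL : T_FHL := by
  intro R y c c' hR hcc P hP
  refine ⟨?_, one_le_mul_of_one_le_of_one_le (one_le_NL R y c) (one_le_NR R y c')⟩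
  obtain ⟨n, hn⟩ : ∃ n, n = R + (1 + R) := ⟨_, rfl⟩
  have hinj : Function.Injective (fun q : ℕ × ℕ => (c - R + q.1, c' - R + q.2)) := by
    intro q q' h
    simp only [Prod.mk.injEq] at h
    exact Prod.ext (by omega) (by omega)
  have hsub : ((Finset.range n ×ˢ Finset.range n).image
      (fun q : ℕ × ℕ => (c - R + q.1, c' - R + q.2))) ⊆ P := by
    intro p hp
    rw [Finset.mem_image] at hp
    obtain ⟨q, hq, rfl⟩ := hp
    rw [Finset.mem_product, Finset.mem_range, Finset.mem_range] at hq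
    exact hP _ _ (by omega) (by omega) (by omega) (by omega)
  have h1 : ∑ q ∈ Finset.range n ×ˢ Finset.range n,
      Real.exp (H y (c - R + q.1) (c' - R + q.2 + 1)) ≤
      ∑ p ∈ P, Real.exp (H y p.1 (p.2 + 1)) := by
    calc ∑ q ∈ Finset.range n ×ˢ Finset.range n,
          Real.exp (H y (c - R + q.1) (c' - R + q.2 + 1))
        = ∑ p ∈ (Finset.range n ×ˢ Finset.range n).image
          (fun q : ℕ × ℕ => (c - R + q.1, c' - R + q.2)), Real.exp (H y p.1 (p.2 + 1)) := by
          rw [Finset.sum_image (hinj.injOn)]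
      _ ≤ _ := Finset.sum_le_sum_of_subset_of_nonneg hsub fun p _ _ => (Real.exp_pos _).le
  refine le_trans (le_of_eq ?_) h1
  rw [NL_eq R y c hR, NR_eq R y c' (by omega), ← hn, Finset.sum_mul_sum, Finset.mul_sum,
    Finset.sum_product]
  apply Finset.sum_congr rfl
  intro i hi
  rw [Finset.mul_sum]
  apply Finset.sum_congr rfl
  intro j hj
  rw [Finset.mem_range] at hi hj
  rw [← Real.exp_add, ← Real.exp_add, H_eq_ps y (by omega : c ≤ c' + 1),
    H_eq_ps y (by omega : c - R + i ≤ c' - R + j + 1)]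
  congr 1
  ring

end Pool.Agent.H36.EX
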