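import Pool.Agent.H98.EX.LTargets

/-!
The moments of an increment (row MGL of the board exa).
-/

set_option autoImplicit false

open MeasureTheory ProbabilityTheory Filter Topology
open Pool.Agent.H95 Pool.Agent.H95.Cop
open Pool.Agent.H55.CG (Mo)
open Pool.Agent.H98.EX

namespace Pool.Agent.H36.EX

private lemma mo_bd (hYSM : T_YSM) {ν : Measure ℝ} {k : ℕ} {ϑ ε τ : ℝ} (h : EG ν k ϑ ε τ 3)
    (hk : 1 ≤ k) (u : ℝ) (hu0 : 0 ≤ u) (hu : u ≤ 2) :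
    Real.exp (ϑ * (u ^ 2 / 2 - u / 4 - u * ε) - τ) ≤ Mo (rl ν k ϑ) u ∧
      Mo (rl ν k ϑ) u ≤ Real.exp (ϑ * (u ^ 2 / 2 - u / 4 - u * ε) + τ) := by
  have hp : IsProbabilityMeasure ν := h.prob
  have hm := (hYSM ν h.exp k ϑ hk).2.2.2.1 u
  have hu' : |u / 2| ≤ 3 := by
    rw [abs_of_nonneg (by linarith)]
    linarith
  have h1 := h.lo (u / 2) hu'
  have h2 := h.up (u / 2) hu'
  rw [hm]
  constructor
  · refine le_trans (le_of_eq ?_) (mul_le_mul_of_nonneg_left h1 (Real.exp_pos _).le)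
    rw [← Real.exp_add]
    congr 1
    ring
  · refine le_trans (mul_le_mul_of_nonneg_left h2 (Real.exp_pos _).le) (le_of_eq ?_)
    rw [← Real.exp_add]
    congr 1
    ring

theorem pf_MGL (hYSM : T_YSM) : T_MGL := by
  intro ν k ϑ ε τ h hk hϑ hε γ δ hδ0 hδ hγ0 hγ
  have a1 := mo_bd hYSM h hk γ (by linarith) (by linarith)
  have a2 := mo_bd hYSM h hk (2 * γ) (by linarith) (by linarith)
  have e1 : 0 ≤ γ ^ 2 / 2 - γ / 4 := by nlinarith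
  have e2 : γ ^ 2 / 2 - γ / 4 ≤ δ := by nlinarith
  have e3 : γ * ε ≤ (1 / 2 + δ) * ε := mul_le_mul_of_nonneg_right (by linarith) hε
  have e4 : 0 ≤ γ * ε := mul_nonneg (by linarith) hε
  refine ⟨?_, ?_, ?_, ?_⟩
  · refine le_trans ?_ a1.1
    rw [Real.exp_le_exp]
    have : ϑ * (-((1 / 2 + δ) * ε)) ≤ ϑ * (γ ^ 2 / 2 - γ / 4 - γ * ε) :=
      mul_le_mul_of_nonneg_left (by linarith) hϑ.le
    linarith
  · refine le_trans a1.2 ?_
    rw [Real.exp_le_exp]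
    have : ϑ * (γ ^ 2 / 2 - γ / 4 - γ * ε) ≤ ϑ * δ :=
      mul_le_mul_of_nonneg_left (by linarith) hϑ.le
    linarith
  · refine le_trans a2.2 ?_
    rw [Real.exp_le_exp]
    have e5 : (2 * γ) ^ 2 / 2 - 2 * γ / 4 - 2 * γ * ε ≤ 3 / 4 := by nlinarith
    have : ϑ * ((2 * γ) ^ 2 / 2 - 2 * γ / 4 - 2 * γ * ε) ≤ ϑ * (3 / 4) :=
      mul_le_mul_of_nonneg_left e5 hϑ.le
    linarith
  · intro hε1 hτ
    have a3 := mo_bd hYSM h hk (γ - 1 / 4) (by linarith) (by linarith)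
    have a4 := mo_bd hYSM h hk (1 / 4) (by norm_num) (by norm_num)
    constructor
    · refine le_trans a3.2 (le_trans ?_ (mul_le_mul_of_nonneg_left a1.1 (Real.exp_pos _).le))
      rw [← Real.exp_add, Real.exp_le_exp]
      have e6 : (γ - 1 / 4) ^ 2 / 2 - (γ - 1 / 4) / 4 - (γ - 1 / 4) * ε ≤
          γ ^ 2 / 2 - γ / 4 - γ * ε + (-(7 / 256)) := by nlinarith
      have : ϑ * ((γ - 1 / 4) ^ 2 / 2 - (γ - 1 / 4) / 4 - (γ - 1 / 4) * ε) ≤
          ϑ * (γ ^ 2 / 2 - γ / 4 - γ * ε + (-(7 / 256))) := mul_le_mul_of_nonneg_left e6 hϑ.le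
      have e7 : ϑ * (γ ^ 2 / 2 - γ / 4 - γ * ε + (-(7 / 256))) =
          ϑ * (γ ^ 2 / 2 - γ / 4 - γ * ε) - 7 / 256 * ϑ := by ring
      rw [e7] at this
      linarith
    · refine le_trans a4.2 ?_
      rw [Real.exp_le_exp]
      have : ϑ * ((1 / 4 : ℝ) ^ 2 / 2 - 1 / 4 / 4 - 1 / 4 * ε) ≤ ϑ * (-(1 / 32)) :=
        mul_le_mul_of_nonneg_left (by linarith) hϑ.le
      linarith

end Pool.Agent.H36.EX
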