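import Pool.Agent.H98.EX.KTargets

/-!
# Row NAX of exa: units
-/

set_option autoImplicit false

open MeasureTheory ProbabilityTheory Filter Topology
open scoped ENNReal
open Pool.Agent.H95 Pool.Agent.H95.Cop Pool.Agent.H96.Cop
open Pool.Agent.H99.CE (BX w1 cq tb Gf Hf)
open Pool.Agent.H98.EX

namespace Pool.Agent.H36.EX

theorem pf_NAX : T_NAX := by
  intro e α s c δ k B M hα hs he hc hδ hk hkB hM
  have hB0 : (0 : ℝ) < B := by exact_mod_cast (by omega : 0 < B)
  have hk0 : (0 : ℝ) < k := by exact_mod_cast (by omega : 0 < k)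
  have hM0 : (0 : ℝ) < M := by exact_mod_cast (by omega : 0 < M)
  have hcq : 0 < cq c δ := by unfold cq; positivity
  have hα1 : 0 < 1 + α := by linarith
  have hth : (1 + α) * te α s = 1 + s := by
    unfold te
    field_simp
  have hte : 0 < te α s := by unfold te; positivity
  have htb : 0 < tb α c δ B := by unfold tb; positivity
  have hkB' : (k : ℝ) / B ≤ 1 := by
    rw [div_le_one hB0]; exact_mod_cast hkB
  have e5 : ue e α s c δ k B = e * tb α c δ B ^ te α s * ((k : ℝ) / B) ^ s := by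
    unfold ue tb
    rw [Real.div_rpow (Real.rpow_nonneg hB0.le _) hcq.le, ← Real.rpow_mul hB0.le, hth,
      Real.div_rpow hk0.le hB0.le, Real.rpow_add hB0, Real.rpow_one, Real.rpow_neg hcq.le]
    have h1 : (B : ℝ) ^ s ≠ 0 := (Real.rpow_pos_of_pos hB0 _).ne'
    field_simp
  refine ⟨?_, htb, ?_, ?_, e5, hth, hte, ?_⟩
  · unfold ue
    have h1 : 0 < (k : ℝ) ^ s := Real.rpow_pos_of_pos hk0 _
    have h2 : 0 < cq c δ ^ (-te α s) := Real.rpow_pos_of_pos hcq _
    positivity
  · unfold ue
    push_cast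
    ring
  · unfold tb
    push_cast
    rw [Real.mul_rpow hM0.le hB0.le]
    ring
  · rw [e5]
    have h1 : ((k : ℝ) / B) ^ s ≤ 1 := Real.rpow_le_one (by positivity) hkB' hs.le
    have h2 : 0 ≤ e * tb α c δ B ^ te α s := by positivity
    exact mul_le_of_le_one_right h2 h1

end Pool.Agent.H36.EX
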